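import Pool.Agent.H41.Delta.Tree

/-!
Cardinals, the box lemma and homogenization.
-/

namespace Pool.Agent.H41.Delta

open Set Cardinal

/-- A fast growing sequence of cardinals. -/
noncomputable def lam : ℕ → Cardinal.{0}
  | 0 => ℵ₀
  | b + 1 => Order.succ (2 ^ lam b)

theorem two_pow_lt (b : ℕ) : 2 ^ lam b < lam (b + 1) := by
  rw [lam]
  exact Order.lt_succ _

theorem lam_lt (b : ℕ) : lam b < lam (b + 1) := (cantor _).trans (two_pow_lt b)

theorem aleph0_le_lam (b : ℕ) : ℵ₀ ≤ lam b := by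
  induction b with
  | zero => exact le_rfl
  | succ b ih => exact ih.trans (lam_lt b).le

theorem lam_mono : Monotone lam := monotone_nat_of_le_succ fun b => (lam_lt b).le

theorem lam_cof (b : ℕ) : (lam (b + 1)).ord.cof = lam (b + 1) := by
  have : Cardinal.IsRegular (lam (b + 1)) := by
    rw [lam]
    exact isRegular_succ ((aleph0_le_lam b).trans (cantor _).le)
  exact this.cof_ord

/-- The coordinate sets. -/
def K (s : ℕ) : Type := (lam (s + 1)).out

theorem mk_K (s : ℕ) : #(K s) = lam (s + 1) := mk_out _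

theorem nonempty_K (s : ℕ) : Nonempty (K s) := by
  rw [← mk_ne_zero_iff, mk_K]
  exact (aleph0_pos.trans_le (aleph0_le_lam _)).ne'

/-- The points. -/
abbrev Pt : Type := ∀ s, K s

/-- A base point. -/
noncomputable def pt : Pt := fun s => (nonempty_K s).some

/-- Points with trivial coordinates from `b` on. -/
def X (b : ℕ) : Set Pt := {x | ∀ s, b ≤ s → x s = pt s}

theorem mk_X (b : ℕ) : #(X b) ≤ lam b := by
  induction b with
  | zero =>
    have : Subsingleton (X 0) := ⟨fun x y => Subtype.ext (funext fun s =>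
      (x.2 s (Nat.zero_le _)).trans (y.2 s (Nat.zero_le _)).symm)⟩
    exact (mk_le_one_iff_set_subsingleton.2 (Set.subsingleton_coe _ |>.1 this)).trans
      (one_le_aleph0.trans (aleph0_le_lam 0))
  | succ b ih =>
    have hf : #(X (b + 1)) ≤ #(X b × K b) := by
      refine mk_le_of_injective (f := fun x : X (b + 1) =>
        ((⟨Function.update x.1 b (pt b), fun s hs => ?_⟩ : X b), x.1 b)) ?_
      · rcases eq_or_ne s b with rfl | hsb
        · simp
        · rw [Function.update_of_ne hsb]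
          exact x.2 s (by omega)
      · intro x y h
        simp only [Prod.mk.injEq, Subtype.mk.injEq] at h
        apply Subtype.ext
        funext s
        rcases eq_or_ne s b with rfl | hsb
        · exact h.2
        · have := congrFun h.1 s
          rwa [Function.update_of_ne hsb, Function.update_of_ne hsb] at this
    calc #(X (b + 1)) ≤ #(X b × K b) := hf
      _ = #(X b) * #(K b) := by rw [mk_prod, lift_id, lift_id]
      _ ≤ lam (b + 1) * lam (b + 1) :=
        mul_le_mul' (ih.trans (lam_lt b).le) (mk_K b).le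
      _ = lam (b + 1) := mul_eq_self (aleph0_le_lam _)

theorem func_card {ι β : Type} {b : ℕ} (h1 : #ι ≤ lam b) (h2 : #β ≤ 2 ^ lam b) :
    #(ι → β) ≤ 2 ^ lam b := by
  rw [mk_arrow, lift_id, lift_id]
  have h0 : (2 : Cardinal.{0}) ^ lam b ≠ 0 := power_ne_zero _ two_ne_zero
  calc #β ^ #ι ≤ (2 ^ lam b) ^ #ι := power_le_power_right h2
    _ ≤ (2 ^ lam b) ^ lam b := power_le_power_left h0 h1
    _ = 2 ^ lam b := by rw [← power_mul, mul_eq_self (aleph0_le_lam b)]

/-- The box lemma. -/
theorem box (a : ℕ) {β : Type} (hβ : #β ≤ 2 ^ lam a) (B : ∀ s, Set (K s))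
    (hB : ∀ s, lam (s + 1) ≤ #(B s)) (d : ℕ) : ∀ F : Pt → β,
    ∃ B' : ∀ s, Set (K s), (∀ s, B' s ⊆ B s) ∧ (∀ s, lam (s + 1) ≤ #(B' s)) ∧
      ∃ v, ∀ y : Pt, (∀ s, a ≤ s → s < a + d → y s ∈ B' s) →
        (∀ s, ¬ (a ≤ s ∧ s < a + d) → y s = pt s) → F y = v := by
  induction d with
  | zero =>
    intro F
    refine ⟨B, fun s => Subset.rfl, hB, F pt, fun y _ hy => ?_⟩
    congr 1
    funext s
    exact hy s (by omega)
  | succ d ih =>
    intro F
    obtain ⟨h, t, ht, htc, hth⟩ := infinite_pigeonhole_set (s := B (a + d))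
      (fun z (x : X (a + d)) => F (Function.update x.1 (a + d) z.1)) (lam (a + d + 1)) (hB _)
      (aleph0_le_lam _) (by
        rw [lam_cof]
        refine (func_card (mk_X _) (hβ.trans ?_)).trans_lt (two_pow_lt _)
        exact power_le_power_left two_ne_zero (lam_mono (Nat.le_add_right _ _)))
    have htne : t.Nonempty := by
      rw [← nonempty_coe_sort, ← mk_ne_zero_iff]
      exact ((aleph0_pos.trans_le (aleph0_le_lam _)).trans_le htc).ne'
    obtain ⟨z0, hz0⟩ := htne
    obtain ⟨B'', h1, h2, v, h3⟩ := ih (fun x => F (Function.update x (a + d) z0))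
    refine ⟨Function.update B'' (a + d) t, ?_, ?_, v, ?_⟩
    · intro s
      rcases eq_or_ne s (a + d) with rfl | hs
      · rw [Function.update_self]
        exact ht
      · rw [Function.update_of_ne hs]
        exact h1 s
    · intro s
      rcases eq_or_ne s (a + d) with rfl | hs
      · rw [Function.update_self]
        exact htc
      · rw [Function.update_of_ne hs]
        exact h2 s
    · intro y hy1 hy2
      have hyb : y (a + d) ∈ t := by
        have := hy1 (a + d) (by omega) (by omega)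
        rwa [Function.update_self] at this
      have hx : Function.update y (a + d) (pt (a + d)) ∈ X (a + d) := by
        intro s hs
        rcases eq_or_ne s (a + d) with rfl | hs'
        · rw [Function.update_self]
        · rw [Function.update_of_ne hs']
          exact hy2 s (by omega)
      have e1 : F y = F (Function.update (Function.update y (a + d) (pt (a + d))) (a + d)
          (y (a + d))) := by
        rw [Function.update_idem, Function.update_eq_self]
      have e2 := congrFun (hth hyb) ⟨_, hx⟩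
      have e3 := congrFun (hth hz0) ⟨_, hx⟩
      simp only at e2 e3
      rw [e1, e2, ← e3]
      refine h3 _ ?_ ?_
      · intro s hs1 hs2
        have hne : s ≠ a + d := by omega
        have := hy1 s hs1 (by omega)
        rw [Function.update_of_ne hne] at this
        rw [Function.update_of_ne hne]
        exact this
      · intro s hs
        rcases eq_or_ne s (a + d) with rfl | hs'
        · rw [Function.update_self]
        · rw [Function.update_of_ne hs']
          exact hy2 s (by omega)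

/-- The tags. -/
abbrev Tg : Type := Σ s : ℕ, K s

/-- the tag map of a point -/
def ph (y : Pt) : ℕ → Tg := fun s => ⟨s, y s⟩

theorem ph_inj (y : Pt) : Function.Injective (ph y) := by
  intro s s' h
  exact congrArg Sigma.fst h

/-- the shifted tree -/
def sh (y : Pt) (θ : L ℕ) : L Tg := L.map (ph y) θ

/-- membership in the box of level `k` -/
def InBox (a : ℕ → ℕ) (B : ℕ → ∀ s, Set (K s)) (k : ℕ) (y : Pt) : Prop :=
  (∀ s, a k ≤ s → s < a (k + 1) → y s ∈ B k s) ∧
    ∀ s, ¬ (a k ≤ s ∧ s < a (k + 1)) → y s = pt s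

theorem nonempty_of_lam_le {s : ℕ} {t : Set (K s)} (h : lam (s + 1) ≤ #t) : t.Nonempty := by
  rw [← nonempty_coe_sort, ← mk_ne_zero_iff]
  exact ((aleph0_pos.trans_le (aleph0_le_lam _)).trans_le h).ne'

theorem exists_inBox (a : ℕ → ℕ) (B : ℕ → ∀ s, Set (K s)) (hB : ∀ k s, lam (s + 1) ≤ #(B k s))
    (k : ℕ) : ∃ y, InBox a B k y := by
  classical
  choose z hz using fun s => nonempty_of_lam_le (hB k s)
  refine ⟨fun s => if a k ≤ s ∧ s < a (k + 1) then z s else pt s, ?_, ?_⟩
  · intro s h1 h2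
    beta_reduce
    rw [if_pos ⟨h1, h2⟩]
    exact hz s
  · intro s h
    beta_reduce
    rw [if_neg h]

theorem countable_card {α : Type} [Countable α] (b : ℕ) : #α ≤ lam b :=
  mk_le_aleph0.trans (aleph0_le_lam b)

/-- Homogenization. -/
theorem homog (a : ℕ → ℕ) (ha : Monotone a) (j : ℕ → L Tg → L Tg × ℕ)
    (hj : ∀ k w, (j k w).1 = w ∨ j k w ∈ w.T) (R : ℕ → L Tg → ℕ)
    (Q : ℕ → L Tg → ℕ → ℕ → L Tg → ℕ) :
    ∃ B : ℕ → ∀ s, Set (K s), (∀ k s, lam (s + 1) ≤ #(B k s)) ∧
      ∃ (Rv : ℕ → L ℕ → ℕ) (pos : ℕ → L ℕ → L ℕ × ℕ)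
        (lv : ℕ → ℕ → ℕ → L ℕ → L ℕ → ℕ),
        (∀ k θ, (pos k θ).1 = θ ∨ pos k θ ∈ θ.T) ∧
        (∀ k y, InBox a B k y → ∀ θ, R k (sh y θ) = Rv k θ ∧
          j k (sh y θ) = L.mapl (ph y) (pos k θ)) ∧
        (∀ k' k, k' < k → ∀ x y, InBox a B k' x → InBox a B k y → ∀ n θ' θ,
          Q k' (sh x θ') n k (sh y θ) = lv k' k n θ' θ) := by
  classical
  have hP : ∀ k y θ, ∃ p : L ℕ × ℕ, j k (sh y θ) = L.mapl (ph y) p ∧ (p.1 = θ ∨ p ∈ θ.T) := by
    intro k y θ
    rcases hj k (sh y θ) with h | h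
    · refine ⟨(θ, (j k (sh y θ)).2), ?_, Or.inl rfl⟩
      exact Prod.ext h rfl
    · rw [sh, L.T_map] at h
      obtain ⟨p, hp, hpe⟩ := h
      exact ⟨p, hpe.symm, Or.inr hp⟩
  choose P hP1 hP2 using hP
  have h1 := fun k => box (a k)
    (β := (L ℕ → ℕ × (L ℕ × ℕ)) × (X (a k) × ℕ × L ℕ × ℕ × L ℕ → ℕ)) (by
      rw [mk_prod, lift_id, lift_id]
      have e1 : #(L ℕ → ℕ × (L ℕ × ℕ)) ≤ 2 ^ lam (a k) :=
        func_card (countable_card _) ((countable_card (a k)).trans (cantor _).le)
      have e2 : #(X (a k) × ℕ × L ℕ × ℕ × L ℕ → ℕ) ≤ 2 ^ lam (a k) := by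
        refine func_card ?_ ((countable_card (a k)).trans (cantor _).le)
        rw [mk_prod, lift_id, lift_id]
        calc _ ≤ lam (a k) * lam (a k) := mul_le_mul' (mk_X _) (countable_card _)
          _ = _ := mul_eq_self (aleph0_le_lam _)
      calc _ ≤ (2 ^ lam (a k)) * (2 ^ lam (a k)) := mul_le_mul' e1 e2
        _ = 2 ^ lam (a k) := mul_eq_self ((aleph0_le_lam _).trans (cantor _).le))
    (fun _ => Set.univ) (fun s => by rw [mk_univ, mk_K]) (a (k + 1) - a k)
    (fun y => (fun θ => (R k (sh y θ), P k y θ),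
      fun q => Q q.2.1 (sh q.1.1 q.2.2.1) q.2.2.2.1 k (sh y q.2.2.2.2)))
  choose B1 _ hB1 v1 hv1 using h1
  have h2 := fun k' => box (a k') (β := ℕ × L ℕ × ℕ × L ℕ → ℕ)
    (func_card (countable_card _) ((countable_card (a k')).trans (cantor _).le))
    (B1 k') (hB1 k') (a (k' + 1) - a k')
    (fun x q => if h : x ∈ X (a q.1) then (v1 q.1).2 (⟨x, h⟩, k', q.2.1, q.2.2.1, q.2.2.2)
      else 0)
  choose B2 hB21 hB2 v2 hv2 using h2
  have hadd : ∀ k, a k + (a (k + 1) - a k) = a (k + 1) := fun k => by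
    have := ha (Nat.le_succ k)
    simp only [Nat.succ_eq_add_one] at this
    omega
  simp only [hadd] at hv1 hv2
  have key1 : ∀ k y, InBox a B2 k y → (fun θ => (R k (sh y θ), P k y θ),
      fun q : X (a k) × ℕ × L ℕ × ℕ × L ℕ =>
        Q q.2.1 (sh q.1.1 q.2.2.1) q.2.2.2.1 k (sh y q.2.2.2.2)) = v1 k := by
    intro k y hy
    exact hv1 k y (fun s hs1 hs2 => hB21 k s (hy.1 s hs1 hs2)) hy.2
  refine ⟨B2, hB2, fun k θ => ((v1 k).1 θ).1, fun k θ => ((v1 k).1 θ).2,
    fun k' k n θ' θ => v2 k' (k, θ', n, θ), ?_, ?_, ?_⟩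
  · intro k θ
    obtain ⟨y, hy⟩ := exists_inBox a B2 hB2 k
    beta_reduce
    rw [← key1 k y hy]
    exact hP2 k y θ
  · intro k y hy θ
    beta_reduce
    rw [← key1 k y hy]
    exact ⟨rfl, hP1 k y θ⟩
  · intro k' k hk x y hx hy n θ' θ
    have hxX : x ∈ X (a k) := by
      intro s hs
      apply hx.2
      have : a (k' + 1) ≤ a k := ha hk
      omega
    have := congrFun (hv2 k' x hx.1 hx.2) (k, θ', n, θ)
    beta_reduce
    rw [← this]
    simp only [dif_pos hxX]
    rw [← key1 k y hy]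

end Pool.Agent.H41.Delta
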