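import Pool.Agent.H41.Delta.Finite
import Pool.Agent.H41.Delta.Box

/-!
The combinatorial claim.
-/

namespace Pool.Agent.H41.Delta

open Set Cardinal L

theorem exists_seq {α : Type} (P : ∀ k : ℕ, (∀ k', k' < k → α) → α → Prop)
    (h : ∀ k f, ∃ x, P k f x) : ∃ s : ℕ → α, ∀ k, P k (fun k' _ => s k') (s k) := by
  choose g hg using h
  refine ⟨(wellFounded_lt (α := ℕ)).fix g, fun k => ?_⟩
  have e := (wellFounded_lt (α := ℕ)).fix_eq g k
  rw [e]
  exact hg k _

/-- the start of level `k` -/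
def lev : ℕ → ℕ
  | 0 => 0
  | k + 1 => lev k + D k (k + 1) k

theorem lev_mono : Monotone lev := monotone_nat_of_le_succ fun k => by rw [lev]; omega

theorem unpair_lt {k : ℕ} (j : Fin k) : (Nat.unpair j).1 < k :=
  (Nat.unpair_left_le _).trans_lt j.2

theorem cond_of_union {S : Type} {l m i R : ℕ} {b w : L S} (hne : b ≠ w)
    (h : cond l m i b (w.T ∪ {p | p.1 = w ∧ p.2 < R})) : cond l m i b w.T := by
  have h1 : ∀ r, (b, r) ∈ w.T ∪ {p | p.1 = w ∧ p.2 < R} → (b, r) ∈ w.T := by
    intro r hr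
    rcases hr with hr | hr
    · exact hr
    · exact absurd hr.1 hne
  refine ⟨?_, fun r hr => h1 r (h.2.1 r hr), h1 _ h.2.2⟩
  intro p hp
  rcases h.1 hp with h2 | h2
  · exact h2
  · exfalso
    have e1 := size_lt_of_mem hp
    have e2 := size_lt_of_mem (h1 _ h.2.2)
    rw [h2.1] at e1
    exact absurd e1 (not_lt.2 e2.le)

theorem comb (j : ℕ → L Tg → L Tg × ℕ) (hj : ∀ k w, (j k w).1 = w ∨ j k w ∈ w.T)
    (R : ℕ → L Tg → ℕ) (Q : ℕ → L Tg → ℕ → ℕ → L Tg → ℕ) :
    ∃ (A : ℕ → Set (L Tg)) (i : ℕ → ℕ) (M : ℕ → ℕ), (∀ k, ¬ (A k).Countable) ∧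
      (∀ k, i k ≤ k) ∧
      (∀ k, ∀ w ∈ A k, ∀ w' ∈ A k, w ≠ w' → (j k w).1 ≠ w' ∧ j k w ∉ w'.T) ∧
      (∀ k, ∀ w ∈ A k, R k w ≤ M k ∧ ∀ p ∈ w.T, p.2 < M k) ∧
      (∀ k', ∀ w' ∈ A k', ∀ n, ∃ m, {q : ℕ × L Tg | root (Q k' w' n q.1) m (i q.1) q.2 ∧
        ∃ w ∈ A q.1, cond (Q k' w' n q.1 q.2) m (i q.1) q.2
          (w.T ∪ {p | p.1 = w ∧ p.2 < R q.1 w})}.Countable) := by
  classical
  obtain ⟨B, hB, Rv, pos, lv, hpos, hlev, hlv⟩ := homog lev lev_mono j hj R Q
  obtain ⟨s, hs⟩ := exists_seq (α := L ℕ × ℕ) (fun k f x =>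
    x.1.tags ⊆ Finset.Ico (lev k) (lev (k + 1)) ∧
    (∀ jj : Fin k, ∀ i ≤ k, ¬ root (lv (Nat.unpair jj).1 k (Nat.unpair jj).2
        (f (Nat.unpair jj).1 (unpair_lt jj)).1) (f jj jj.2).2 i x.1) ∧
    (∀ c, ∃ i ≤ k, ∀ (jj : Fin k) b, root (lv (Nat.unpair jj).1 k (Nat.unpair jj).2
        (f (Nat.unpair jj).1 (unpair_lt jj)).1) (f jj jj.2).2 i b →
        cond (lv (Nat.unpair jj).1 k (Nat.unpair jj).2
        (f (Nat.unpair jj).1 (unpair_lt jj)).1 b) (f jj jj.2).2 i b x.1.T → c ∉ b.tags) ∧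
    (∀ p ∈ x.1.T, p.2 < x.2) ∧ Rv k x.1 ≤ x.2 ∧ ∀ jj : Fin k, (f jj jj.2).2 ≤ x.2) (by
      intro k f
      obtain ⟨θ, h1, h2, h3⟩ := finite_lemma k (fun jj => lv (Nat.unpair jj).1 k
        (Nat.unpair jj).2 (f (Nat.unpair jj).1 (unpair_lt jj)).1) (fun jj => (f jj jj.2).2)
        (Finset.Ico (lev k) (lev (k + 1))) (by
          rw [Nat.card_Ico, lev]
          omega)
      obtain ⟨M1, hM1⟩ : ∃ M, ∀ p ∈ θ.T, p.2 < M := by
        obtain ⟨M, hM⟩ := ((T_finite θ).image Prod.snd).bddAbove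
        exact ⟨M + 1, fun p hp => Nat.lt_succ_of_le (hM ⟨p, hp, rfl⟩)⟩
      refine ⟨(θ, M1 + Rv k θ + ∑ jj : Fin k, (f jj jj.2).2), h1, h2, h3, ?_, ?_, ?_⟩
      · intro p hp
        have := hM1 p hp
        simp only
        omega
      · simp only
        omega
      · intro jj
        have := Finset.single_le_sum (f := fun jj : Fin k => (f jj jj.2).2)
          (fun _ _ => Nat.zero_le _) (Finset.mem_univ jj)
        simp only at this ⊢
        omega)
  set θ : ℕ → L ℕ := fun k => (s k).1 with hθ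
  set M : ℕ → ℕ := fun k => (s k).2 with hM
  have h1 : ∀ k, (θ k).tags ⊆ Finset.Ico (lev k) (lev (k + 1)) := fun k => (hs k).1
  have h2 : ∀ k (jj : Fin k), ∀ i ≤ k, ¬ root (lv (Nat.unpair jj).1 k (Nat.unpair jj).2
    (θ (Nat.unpair jj).1)) (M jj) i (θ k) := fun k => (hs k).2.1
  have h4 : ∀ k, ∀ p ∈ (θ k).T, p.2 < M k := fun k => (hs k).2.2.2.1
  have h5 : ∀ k, Rv k (θ k) ≤ M k := fun k => (hs k).2.2.2.2.1
  have h6 : ∀ k, ∀ jj : Fin k, M jj ≤ M k := fun k => (hs k).2.2.2.2.2
  have hMm : Monotone M := monotone_nat_of_le_succ fun k => h6 (k + 1) ⟨k, Nat.lt_succ_self k⟩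
  set c : ℕ → ℕ := fun k => (pos k (θ k)).1.top with hc
  have hcI : ∀ k, lev k ≤ c k ∧ c k < lev (k + 1) := by
    intro k
    have : c k ∈ (θ k).tags := by
      rcases hpos k (θ k) with h | h
      · rw [hc]
        simp only
        rw [h]
        exact top_mem_tags _
      · exact tags_subset_of_mem h (top_mem_tags _)
    have := h1 k this
    rw [Finset.coe_Ico] at this
    exact this
  have h3 : ∀ k, ∃ i ≤ k, ∀ (jj : Fin k) b, root (lv (Nat.unpair jj).1 k (Nat.unpair jj).2
        (θ (Nat.unpair jj).1)) (M jj) i b →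
        cond (lv (Nat.unpair jj).1 k (Nat.unpair jj).2
        (θ (Nat.unpair jj).1) b) (M jj) i b (θ k).T → c k ∉ b.tags :=
    fun k => (hs k).2.2.1 (c k)
  choose i hi hi2 using h3
  choose z hz using fun k => exists_inBox lev B hB k
  set g : ∀ k, K (c k) → L Tg := fun k u => sh (Function.update (z k) (c k) u) (θ k) with hg
  have hbox : ∀ k, ∀ u ∈ B k (c k), InBox lev B k (Function.update (z k) (c k) u) := by
    intro k u hu
    constructor
    · intro t ht1 ht2
      rcases eq_or_ne t (c k) with rfl | ht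
      · rw [Function.update_self]
        exact hu
      · rw [Function.update_of_ne ht]
        exact (hz k).1 t ht1 ht2
    · intro t ht
      rcases eq_or_ne t (c k) with rfl | ht'
      · exact absurd (hcI k) ht
      · rw [Function.update_of_ne ht']
        exact (hz k).2 t ht
  have hjtop : ∀ k, ∀ u ∈ B k (c k), (j k (g k u)).1.top = ⟨c k, u⟩ := by
    intro k u hu
    have := ((hlev k _ (hbox k u hu)) (θ k)).2
    rw [hg]
    simp only
    rw [this, mapl, top_map, ph]
    change (⟨c k, Function.update (z k) (c k) u (c k)⟩ : Tg) = _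
    rw [Function.update_self]
  have htop : ∀ k u (e : L ℕ) (v : K (c k)),
      (sh (Function.update (z k) (c k) u) e).top = (⟨c k, v⟩ : Tg) → u = v := by
    intro k u e v h
    rw [sh, top_map, ph] at h
    have h' := Sigma.mk.inj_iff.1 h
    obtain ⟨ha, hb⟩ := h'
    rw [ha] at hb
    rw [Function.update_self] at hb
    exact eq_of_heq hb
  refine ⟨fun k => g k '' B k (c k), i, M, ?_, hi, ?_, ?_, ?_⟩
  · intro k hcount
    have hinj : Set.InjOn (g k) (B k (c k)) := by
      intro u hu v hv huv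
      have e1 := hjtop k u hu
      have e2 := hjtop k v hv
      rw [huv, e2] at e1
      exact (eq_of_heq (Sigma.mk.inj_iff.1 e1).2).symm
    have : (B k (c k)).Countable :=
      (Set.mapsTo_image (g k) (B k (c k))).countable_of_injOn hinj hcount
    have h7 := (hB k (c k)).trans this.le_aleph0
    exact absurd ((aleph0_le_lam _).trans_lt (lam_lt _)) (not_lt.2 h7)
  · rintro k _ ⟨u, hu, rfl⟩ _ ⟨v, hv, rfl⟩ hne
    have key : ∀ e : L ℕ, (j k (g k u)).1 ≠ sh (Function.update (z k) (c k) v) e := by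
      intro e he
      have e1 := hjtop k u hu
      rw [he] at e1
      exact hne (congrArg (g k) (htop k v e u e1).symm)
    refine ⟨key _, ?_⟩
    intro hmem
    rw [hg] at hmem
    simp only at hmem
    rw [sh, T_map] at hmem
    obtain ⟨p, _, hpe⟩ := hmem
    exact key p.1 (congrArg Prod.fst hpe).symm
  · rintro k _ ⟨u, hu, rfl⟩
    constructor
    · have := ((hlev k _ (hbox k u hu)) (θ k)).1
      rw [hg]
      simp only
      rw [this]
      exact h5 k
    · intro p hp
      rw [hg] at hp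
      simp only at hp
      rw [sh, T_map] at hp
      obtain ⟨q, hq, rfl⟩ := hp
      exact h4 k q hq
  · rintro k' _ ⟨u', hu', rfl⟩ n
    refine ⟨M (Nat.pair k' n), ?_⟩
    have hcount : (Set.range (fun q : ℕ × L ℕ => (q.1, sh (z q.1) q.2))).Countable :=
      Set.countable_range _
    apply hcount.mono
    rintro ⟨k, b⟩ ⟨hroot, w, ⟨u, hu, rfl⟩, hcond⟩
    simp only at hroot hu hcond
    set y' := Function.update (z k') (c k') u' with hy'
    set y := Function.update (z k) (c k) u with hy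
    have hw : g k u = sh y (θ k) := rfl
    rw [hw] at hcond
    by_cases hk : k ≤ Nat.pair k' n
    · exfalso
      have hc1 := hcond.2.2
      have hc2 : M (Nat.pair k' n) ≤ code (Q k' (g k' u') n k b) (M (Nat.pair k' n)) (i k) :=
        le_code_mid _ _ _
      have hc3 := hMm hk
      rcases hc1 with hc1 | hc1
      · rw [sh, T_map] at hc1
        obtain ⟨q, hq, hqe⟩ := hc1
        have hq2 := h4 k q hq
        have : q.2 = code (Q k' (g k' u') n k b) (M (Nat.pair k' n)) (i k) :=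
          congrArg Prod.snd hqe
        omega
      · have hr : R k (sh y (θ k)) = Rv k (θ k) := ((hlev k _ (hbox k u hu)) (θ k)).1
        have hr2 := h5 k
        have := hc1.2
        simp only at this
        omega
    · push Not at hk
      have hk' : k' < k := (Nat.left_le_pair _ _).trans_lt hk
      have hQ : ∀ e, Q k' (g k' u') n k (sh y e) = lv k' k n (θ k') e := fun e =>
        hlv k' k hk' y' y (hbox k' u' hu') (hbox k u hu) n (θ k') e
      have hroot' : ∀ e : L ℕ, root (Q k' (g k' u') n k) (M (Nat.pair k' n)) (i k) (sh y e) →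
          root (lv k' k n (θ k')) (M (Nat.pair k' n)) (i k) e := by
        intro e he
        rw [sh, root_map (ph_inj y)] at he
        have : (fun b => Q k' (g k' u') n k (L.map (ph y) b)) = lv k' k n (θ k') :=
          funext fun e => hQ e
        rw [this] at he
        exact he
      have hh2 := h2 k ⟨Nat.pair k' n, hk⟩ (i k) (hi k)
      have hh3 := hi2 k ⟨Nat.pair k' n, hk⟩
      simp only [Nat.unpair_pair] at hh2 hh3
      have hne : b ≠ sh y (θ k) := by
        intro hb
        rw [hb] at hroot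
        exact hh2 (hroot' _ hroot)
      have hcond' := cond_of_union hne hcond
      have hc1 := hcond'.2.2
      rw [sh, T_map] at hc1
      obtain ⟨q, hq, hqe⟩ := hc1
      have hqb : sh y q.1 = b := congrArg Prod.fst hqe
      rw [← hqb] at hcond' hroot ⊢
      have hc2 : cond (lv k' k n (θ k') q.1) (M (Nat.pair k' n)) (i k) q.1 (θ k).T := by
        rw [hQ, sh, sh, T_map, cond_map (ph_inj y)] at hcond'
        exact hcond'
      have hfin := hh3 q.1 (hroot' _ hroot) hc2
      refine ⟨(k, q.1), ?_⟩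
      simp only [Prod.mk.injEq, true_and]
      apply L.map_congr
      intro t ht
      have htc : t ≠ c k := fun h => hfin (h ▸ ht)
      simp only [ph, hy]
      rw [Function.update_of_ne htc]

end Pool.Agent.H41.Delta
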