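import Pool.Agent.H41.Delta.Tree

/-!
The finite combinatorial lemma.
-/

namespace Pool.Agent.H41.Delta

open L

/-- label-closed trees -/
def Closed {S : Type} (w : L S) : Prop := ∀ p ∈ w.T, p.1.T ⊆ w.T

/-- the sheets in which a root with tag `c` is visible at `θ` -/
def Z {ρ : ℕ} (n : ℕ) (l : Fin ρ → L ℕ → ℕ) (μ : Fin ρ → ℕ) (θ : L ℕ) (c : ℕ) : Set ℕ :=
  {i | i < n ∧ ∃ j b, root (l j) (μ j) i b ∧ cond (l j b) (μ j) i b θ.T ∧ c ∈ b.tags}

/-- the indices covered at `θ` -/
def Cov {ρ : ℕ} (n : ℕ) (l : Fin ρ → L ℕ → ℕ) (μ : Fin ρ → ℕ) (θ : L ℕ) : Set (Fin ρ) :=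
  {j | ∀ i < n, ¬ root (l j) (μ j) i θ}

/-- the bound -/
def D (ρ n : ℕ) : ℕ → ℕ
  | 0 => 1
  | t + 1 => (ρ * n + 1) * D ρ n t + 1

theorem Z_finite {ρ : ℕ} (n : ℕ) (l : Fin ρ → L ℕ → ℕ) (μ : Fin ρ → ℕ) (θ : L ℕ) (c : ℕ) :
    (Z n l μ θ c).Finite :=
  (Set.finite_Iio n).subset fun _ hi => hi.1

theorem finite_aux (ρ n : ℕ) (hn : ρ < n) (l : Fin ρ → L ℕ → ℕ) (μ : Fin ρ → ℕ) (t : ℕ) :
    t ≤ ρ → ∀ A : Finset ℕ, D ρ n t ≤ A.card → ∃ θ : L ℕ, θ.tags ⊆ A ∧ Closed θ ∧
      t ≤ (Cov n l μ θ).ncard ∧ ∀ c, (Z n l μ θ c).ncard ≤ t := by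
  classical
  induction t with
  | zero =>
    intro _ A hA
    obtain ⟨x, hx⟩ : A.Nonempty := Finset.card_pos.1 (lt_of_lt_of_le Nat.one_pos hA)
    obtain ⟨w, hw1, hw2⟩ := L.exists_T x ∅ Set.finite_empty
    refine ⟨w, ?_, ?_, Nat.zero_le _, ?_⟩
    · rw [tags_eq, hw2, hw1]
      simpa using hx
    · intro p hp
      rw [hw2] at hp
      exact absurd hp (Set.notMem_empty _)
    · intro c
      have : Z n l μ w c = ∅ := by
        rw [Set.eq_empty_iff_forall_notMem]
        rintro i ⟨_, j, b, _, h, _⟩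
        have := h.2.2
        rw [hw2] at this
        exact this
      rw [this]
      simp
  | succ t ih =>
    intro ht A hA
    have ih' := ih (by omega)
    rw [D] at hA
    obtain ⟨x, hx⟩ : A.Nonempty := Finset.card_pos.1 (by omega)
    have hcard : (ρ * n + 1) * D ρ n t ≤ (A.erase x).card := by
      rw [Finset.card_erase_of_mem hx]
      omega
    obtain ⟨e⟩ : Nonempty (Fin (ρ * n + 1) × Fin (D ρ n t) ↪ {y // y ∈ A.erase x}) :=
      Function.Embedding.nonempty_of_card_le (by
        rw [Fintype.card_prod, Fintype.card_fin, Fintype.card_fin, Fintype.card_coe]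
        exact hcard)
    set As : Fin (ρ * n + 1) → Finset ℕ := fun u =>
      Finset.univ.image (fun v => (e (u, v)).1) with hAs
    have hAs_card : ∀ u, (As u).card = D ρ n t := by
      intro u
      rw [hAs]
      simp only
      rw [Finset.card_image_of_injective, Finset.card_univ, Fintype.card_fin]
      intro v v' hv
      have := e.injective (Subtype.ext hv)
      exact congrArg Prod.snd this
    have hAs_sub : ∀ u, As u ⊆ A.erase x := by
      intro u y hy
      rw [hAs] at hy
      simp only [Finset.mem_image, Finset.mem_univ, true_and] at hy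
      obtain ⟨v, rfl⟩ := hy
      exact (e (u, v)).2
    have hAs_disj : ∀ u u' y, y ∈ As u → y ∈ As u' → u = u' := by
      intro u u' y hy hy'
      rw [hAs] at hy hy'
      simp only [Finset.mem_image, Finset.mem_univ, true_and] at hy hy'
      obtain ⟨v, hv⟩ := hy
      obtain ⟨v', hv'⟩ := hy'
      have := e.injective (Subtype.ext (hv.trans hv'.symm))
      exact congrArg Prod.fst this
    have := fun u => ih' (As u) (hAs_card u).ge
    choose θ hθ1 hθ2 hθ3 hθ4 using this
    by_cases hbig : ∃ u, t + 1 ≤ (Cov n l μ (θ u)).ncard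
    · obtain ⟨u, hu⟩ := hbig
      refine ⟨θ u, ?_, hθ2 u, hu, fun c => (hθ4 u c).trans (Nat.le_succ t)⟩
      intro y hy
      exact Finset.mem_of_mem_erase (hAs_sub u (hθ1 u hy))
    push Not at hbig
    have hmin : ∀ u, ∃ s : Fin ρ, s ∉ Cov n l μ (θ u) ∧
        ∀ j, j ∉ Cov n l μ (θ u) → l s (θ u) ≤ l j (θ u) := by
      intro u
      have hne : ((Cov n l μ (θ u))ᶜ : Set (Fin ρ)).Nonempty := by
        rw [Set.nonempty_iff_ne_empty]
        intro h0
        rw [Set.compl_empty_iff] at h0
        have := hbig u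
        rw [h0, Set.ncard_univ, Nat.card_eq_fintype_card, Fintype.card_fin] at this
        omega
      obtain ⟨s, hs1, hs2⟩ := Set.exists_min_image ((Cov n l μ (θ u))ᶜ) (fun j => l j (θ u))
        (Set.toFinite _) hne
      exact ⟨s, hs1, fun j hj => hs2 j hj⟩
    choose sel hsel1 hsel2 using hmin
    obtain ⟨s, hs⟩ := Fintype.exists_lt_card_fiber_of_mul_lt_card (n := n) sel (by
      rw [Fintype.card_fin, Fintype.card_fin]
      omega)
    obtain ⟨g⟩ : Nonempty (Fin n ↪ {u // sel u = s}) :=
      Function.Embedding.nonempty_of_card_le (by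
        rw [Fintype.card_fin, Fintype.card_subtype]
        exact hs.le)
    set a : Fin n → L ℕ := fun i => θ (g i).1 with ha
    have hsela : ∀ i, sel (g i).1 = s := fun i => (g i).2
    have htag : ∀ i i' y, y ∈ (a i).tags → y ∈ (a i').tags → i = i' := by
      intro i i' y hy hy'
      have := hAs_disj _ _ y (hθ1 _ hy) (hθ1 _ hy')
      exact g.injective (Subtype.ext this)
    set F : Set (L ℕ × ℕ) := {p | ∃ i : Fin n, p ∈ (a i).T ∨ (p.1 = a i ∧
      (p.2 < l s (a i) ∨ p.2 = code (l s (a i)) (μ s) i))} with hF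
    have hFfin : F.Finite := by
      have h1 : (⋃ i : Fin n, ((a i).T ∪ ((fun r => (a i, r)) ''
          (Set.Iio (l s (a i)) ∪ {code (l s (a i)) (μ s) i})))).Finite := by
        apply Set.finite_iUnion
        intro i
        exact (T_finite _).union (((Set.finite_Iio _).union (Set.finite_singleton _)).image _)
      apply h1.subset
      rintro ⟨b, r⟩ ⟨i, hi⟩
      rw [Set.mem_iUnion]
      refine ⟨i, ?_⟩
      rcases hi with hi | ⟨hi1, hi2⟩
      · exact Or.inl hi
      · right
        simp only at hi1 hi2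
        refine ⟨r, ?_, by rw [hi1]⟩
        exact hi2
    obtain ⟨w, hw1, hw2⟩ := L.exists_T x F hFfin
    have hn0 : 0 < n := by omega
    have hTa : ∀ i, (a i).T ⊆ w.T := by
      intro i p hp
      rw [hw2]
      exact ⟨i, Or.inl hp⟩
    have hown : ∀ p ∈ w.T, ∃ i, p.1.tags ⊆ (a i).tags := by
      intro p hp
      rw [hw2] at hp
      obtain ⟨i, hp | ⟨hp, _⟩⟩ := hp
      · exact ⟨i, tags_subset_of_mem hp⟩
      · exact ⟨i, by rw [hp]⟩
    refine ⟨w, ?_, ?_, ?_, ?_⟩
    · rw [tags_eq, hw1]
      intro y hy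
      rcases hy with rfl | hy
      · exact hx
      · simp only [Set.mem_iUnion] at hy
        obtain ⟨p, hp, hy⟩ := hy
        obtain ⟨i, hi⟩ := hown p hp
        exact Finset.mem_of_mem_erase (hAs_sub _ (hθ1 _ (hi hy)))
    · intro p hp
      have hp' := hp
      rw [hw2] at hp
      obtain ⟨i, hp | ⟨hp, _⟩⟩ := hp
      · exact (hθ2 _ p hp).trans (hTa i)
      · rw [hp]
        exact hTa i
    · -- covered
      have h0 : insert s (Cov n l μ (a ⟨0, hn0⟩)) ⊆ Cov n l μ w := by
        intro j hj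
        rcases hj with rfl | hj
        · intro i hi
          rw [root_iff, not_not]
          by_cases hr : root (l j) (μ j) i (a ⟨i, hi⟩)
          · refine ⟨_, hr, hTa _, fun r hr => ?_, ?_⟩
            · rw [hw2]
              exact ⟨_, Or.inr ⟨rfl, Or.inl hr⟩⟩
            · rw [hw2]
              exact ⟨⟨i, hi⟩, Or.inr ⟨rfl, Or.inr rfl⟩⟩
          · rw [root_iff, not_not] at hr
            obtain ⟨b, hb1, hb2⟩ := hr
            exact ⟨b, hb1, cond_mono (hTa _) hb2⟩
        · intro i hi
          have := hj i hi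
          rw [root_iff, not_not] at this ⊢
          obtain ⟨b, hb1, hb2⟩ := this
          exact ⟨b, hb1, cond_mono (hTa _) hb2⟩
      have h1 : s ∉ Cov n l μ (a ⟨0, hn0⟩) := by
        have := hsel1 (g ⟨0, hn0⟩).1
        rw [hsela] at this
        exact this
      calc t + 1 ≤ (Cov n l μ (a ⟨0, hn0⟩)).ncard + 1 := Nat.succ_le_succ (hθ3 _)
        _ = (insert s (Cov n l μ (a ⟨0, hn0⟩))).ncard :=
          (Set.ncard_insert_of_notMem h1 (Set.toFinite _)).symm
        _ ≤ _ := Set.ncard_le_ncard h0 (Set.toFinite _)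
    · -- visibility
      intro c
      by_cases hc : ∃ i, c ∈ (a i).tags
      · obtain ⟨i0, hc⟩ := hc
        -- labels in `w.T` whose owner has the tag `c`
        have hlab : ∀ p ∈ w.T, c ∈ p.1.tags → p ∈ (a i0).T ∨ (p.1 = a i0 ∧
            (p.2 < l s (a i0) ∨ p.2 = code (l s (a i0)) (μ s) i0)) := by
          intro p hp hcp
          rw [hw2] at hp
          obtain ⟨i, hi⟩ := hp
          have hii : i = i0 := by
            apply htag i i0 c _ hc
            rcases hi with hi | ⟨hi, _⟩
            · exact tags_subset_of_mem hi hcp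
            · rw [← hi]; exact hcp
          rw [hii] at hi
          exact hi
        have hsub : Z n l μ w c ⊆ insert (i0 : ℕ) (Z n l μ (a i0) c) := by
          rintro i ⟨hi, j, b, hb1, hb2, hb3⟩
          by_cases hba : b = a i0
          · left
            subst hba
            rcases hlab _ hb2.2.2 hb3 with h | ⟨_, h | h⟩
            · exact absurd h (not_mem_self _ _)
            · exfalso
              simp only at h
              have hlt : l j (a i0) < l s (a i0) := lt_of_le_of_lt (le_code_left _ _ _) h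
              have hjc : j ∈ Cov n l μ (a i0) := by
                by_contra hjc
                have := hsel2 (g i0).1 j hjc
                rw [hsela] at this
                exact absurd hlt (not_lt.2 this)
              exact hjc i hi hb1
            · simp only at h
              exact (code_inj h).2.2
          · right
            have hb4 : b ∈ Prod.fst '' (a i0).T := by
              rcases hlab _ hb2.2.2 hb3 with h | ⟨h, _⟩
              · exact ⟨_, h, rfl⟩
              · exact absurd h hba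
            obtain ⟨q, hq, hqb⟩ := hb4
            refine ⟨hi, j, b, hb1, ⟨?_, ?_, ?_⟩, hb3⟩
            · rw [← hqb]
              exact hθ2 _ q hq
            · intro r hr
              rcases hlab _ (hb2.2.1 r hr) hb3 with h | ⟨h, _⟩
              · exact h
              · exact absurd h hba
            · rcases hlab _ hb2.2.2 hb3 with h | ⟨h, _⟩
              · exact h
              · exact absurd h hba
        calc (Z n l μ w c).ncard ≤ (insert (i0 : ℕ) (Z n l μ (a i0) c)).ncard :=
              Set.ncard_le_ncard hsub ((Z_finite _ _ _ _ _).insert _)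
          _ ≤ (Z n l μ (a i0) c).ncard + 1 := Set.ncard_insert_le _ _
          _ ≤ t + 1 := Nat.succ_le_succ (hθ4 _ c)
      · have : Z n l μ w c = ∅ := by
          rw [Set.eq_empty_iff_forall_notMem]
          rintro i ⟨_, j, b, _, hb2, hb3⟩
          obtain ⟨i', hi'⟩ := hown _ hb2.2.2
          exact hc ⟨i', hi' hb3⟩
        rw [this]
        simp

/-- The finite lemma. -/
theorem finite_lemma (ρ : ℕ) (l : Fin ρ → L ℕ → ℕ) (μ : Fin ρ → ℕ) (A : Finset ℕ)
    (hA : D ρ (ρ + 1) ρ ≤ A.card) :
    ∃ θ : L ℕ, θ.tags ⊆ A ∧ (∀ j, ∀ i ≤ ρ, ¬ root (l j) (μ j) i θ) ∧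
      ∀ c, ∃ i ≤ ρ, ∀ j b, root (l j) (μ j) i b → cond (l j b) (μ j) i b θ.T →
        c ∉ b.tags := by
  obtain ⟨θ, h1, _, h3, h4⟩ := finite_aux ρ (ρ + 1) (Nat.lt_succ_self _) l μ ρ le_rfl A hA
  refine ⟨θ, h1, ?_, ?_⟩
  · have : Cov (ρ + 1) l μ θ = Set.univ := by
      apply Set.eq_of_subset_of_ncard_le (Set.subset_univ _) _ (Set.toFinite _)
      rw [Set.ncard_univ, Nat.card_eq_fintype_card, Fintype.card_fin]
      exact h3
    intro j i hi
    have hj : j ∈ Cov (ρ + 1) l μ θ := by rw [this]; trivial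
    exact hj i (by omega)
  · intro c
    by_contra hcon
    push Not at hcon
    have : Set.Iio (ρ + 1) ⊆ Z (ρ + 1) l μ θ c := by
      intro i hi
      have hi' : i < ρ + 1 := hi
      obtain ⟨j, b, hb1, hb2, hb3⟩ := hcon i (by omega)
      exact ⟨hi', j, b, hb1, hb2, hb3⟩
    have h5 := Set.ncard_le_ncard this (Z_finite _ _ _ _ _)
    have h6 : (Set.Iio (ρ + 1) : Set ℕ).ncard = ρ + 1 := by
      rw [← Finset.coe_Iio, Set.ncard_coe_finset, Nat.card_Iio]
    have := h4 c
    omega

end Pool.Agent.H41.Delta
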