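import Pool.Agent.H41.Delta.Comb

/-!
The spaces.
-/

namespace Pool.Agent.H41.Delta

open Set L

/-- The basic set of labels. -/
def nb (w : L Tg) (l : ℕ) : Set (L Tg × ℕ) := w.T ∪ {q | q.1 = w ∧ q.2 < l}

theorem nb_mono {w : L Tg} {l l' : ℕ} (h : l ≤ l') : nb w l ⊆ nb w l' := by
  rintro q (hq | hq)
  · exact Or.inl hq
  · exact Or.inr ⟨hq.1, hq.2.trans_le h⟩

theorem T_sub_nb (w : L Tg) (l : ℕ) : w.T ⊆ nb w l := Set.subset_union_left

/-- Isolated points of the spaces. -/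
structure PP : Type where
  /-- the sets -/
  E : ℕ → Set (Set (L Tg × ℕ) × ℕ)
  /-- no point of the spaces is in the closure -/
  good : ∀ k w, ∃ l, ∀ te ∈ E k, ¬ nb w l ⊆ te.1

/-- the data -/
abbrev GD : Type := ℕ → L Tg → ℕ

/-- the generating sets -/
def CQ (Q : GD) : Set PP :=
  {p | ∃ m, {q : ℕ × ℕ × L Tg | q.2.1 ≤ q.1 ∧ root (Q q.1) m q.2.1 q.2.2 ∧
    ∃ te ∈ p.E q.1, te.2 = q.2.1 ∧ cond (Q q.1 q.2.2) m q.2.1 q.2.2 te.1}.Countable}

/-- the filter -/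
def FF (C : Set PP) : Prop := ∃ Qs : ℕ → GD, ⋂ n, CQ (Qs n) ⊆ C

theorem FF_mono {C C' : Set PP} (h : C ⊆ C') (hC : FF C) : FF C' := by
  obtain ⟨Qs, hQ⟩ := hC
  exact ⟨Qs, hQ.trans h⟩

theorem FF_univ : FF Set.univ := ⟨fun _ _ _ => 0, Set.subset_univ _⟩

theorem FF_CQ (Q : GD) : FF (CQ Q) := ⟨fun _ => Q, by
  intro p hp
  exact Set.mem_iInter.1 hp 0⟩

theorem FF_iInter {C : ℕ → Set PP} (h : ∀ n, FF (C n)) : FF (⋂ n, C n) := by
  choose Qs hQ using h
  refine ⟨fun m => Qs (Nat.unpair m).1 (Nat.unpair m).2, ?_⟩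
  intro p hp
  rw [Set.mem_iInter] at hp ⊢
  intro n
  apply hQ n
  rw [Set.mem_iInter]
  intro m
  have := hp (Nat.pair n m)
  simpa only [Nat.unpair_pair] using this

theorem FF_inter {C C' : Set PP} (h : FF C) (h' : FF C') : FF (C ∩ C') := by
  have := FF_iInter (C := fun n => if n = 0 then C else C') (by
    intro n
    split_ifs
    · exact h
    · exact h')
  apply FF_mono _ this
  intro p hp
  rw [Set.mem_iInter] at hp
  have h0 := hp 0
  have h1 := hp 1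
  simp only [if_true, one_ne_zero, if_false] at h0 h1
  exact ⟨h0, h1⟩

/-- The upper space. -/
inductive XX : Type
  | node (k : ℕ) (w : L Tg) (i : ℕ) (h : i ≤ k) : XX
  | leaf (p : PP) : XX

/-- The lower space. -/
inductive YY : Type
  | node (k : ℕ) (w : L Tg) : YY
  | leaf (p : PP) : YY

/-- the map -/
def ff : XX → YY
  | XX.node k w _ _ => YY.node k w
  | XX.leaf p => YY.leaf p

/-- the point `p` sees `w` in sheet `i` -/
def sees (p : PP) (k i : ℕ) (w : L Tg) (l : ℕ) : Prop :=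
  ∃ te ∈ p.E k, te.2 = i ∧ nb w l ⊆ te.1

theorem sees_mono {p : PP} {k i : ℕ} {w : L Tg} {l l' : ℕ} (h : l ≤ l') (hs : sees p k i w l') :
    sees p k i w l := by
  obtain ⟨te, h1, h2, h3⟩ := hs
  exact ⟨te, h1, h2, (nb_mono h).trans h3⟩

/-- the neighbourhood condition at a node -/
def Nh (U : Set XX) (k : ℕ) (w : L Tg) (i l : ℕ) (C : Set PP) : Prop :=
  (∀ w' h, nb w l ⊆ w'.T → XX.node k w' i h ∈ U) ∧
    ∀ p ∈ C, sees p k i w l → XX.leaf p ∈ U

theorem Nh_mono {U U' : Set XX} {k : ℕ} {w : L Tg} {i l l' : ℕ} {C C' : Set PP} (hU : U ⊆ U')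
    (hl : l ≤ l') (hC : C' ⊆ C) (h : Nh U k w i l C) : Nh U' k w i l' C' :=
  ⟨fun w' h' hw' => hU (h.1 w' h' ((nb_mono hl).trans hw')),
    fun p hp hs => hU (h.2 p (hC hp) (sees_mono hl hs))⟩

instance topX : TopologicalSpace XX where
  IsOpen U := ∀ k w i h, XX.node k w i h ∈ U → ∃ l C, FF C ∧ Nh U k w i l C
  isOpen_univ := fun k w i h _ => ⟨0, Set.univ, FF_univ, fun _ _ _ => trivial,
    fun _ _ _ => trivial⟩
  isOpen_inter := by
    intro U V hU hV k w i h hx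
    obtain ⟨l1, C1, hC1, h1⟩ := hU k w i h hx.1
    obtain ⟨l2, C2, hC2, h2⟩ := hV k w i h hx.2
    refine ⟨max l1 l2, C1 ∩ C2, FF_inter hC1 hC2, ?_, ?_⟩
    · intro w' h' hw'
      exact ⟨h1.1 w' h' ((nb_mono (le_max_left _ _)).trans hw'),
        h2.1 w' h' ((nb_mono (le_max_right _ _)).trans hw')⟩
    · intro p hp hs
      exact ⟨h1.2 p hp.1 (sees_mono (le_max_left _ _) hs),
        h2.2 p hp.2 (sees_mono (le_max_right _ _) hs)⟩
  isOpen_sUnion := by
    intro s hs k w i h hx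
    obtain ⟨U, hU, hxU⟩ := hx
    obtain ⟨l, C, hC, h1⟩ := hs U hU k w i h hxU
    exact ⟨l, C, hC, Nh_mono (Set.subset_sUnion_of_mem hU) le_rfl Subset.rfl h1⟩

theorem isOpen_X {U : Set XX} : IsOpen U ↔
    ∀ k w i h, XX.node k w i h ∈ U → ∃ l C, FF C ∧ Nh U k w i l C := Iff.rfl

instance topY : TopologicalSpace YY := TopologicalSpace.coinduced ff topX

theorem isOpen_Y {V : Set YY} : IsOpen V ↔ IsOpen (ff ⁻¹' V) := Iff.rfl

theorem continuous_ff : Continuous ff := continuous_coinduced_rng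

theorem surjective_ff : Function.Surjective ff := by
  rintro (⟨k, w⟩ | p)
  · exact ⟨XX.node k w 0 (Nat.zero_le _), rfl⟩
  · exact ⟨XX.leaf p, rfl⟩

theorem finite_fibre (y : YY) : (ff ⁻¹' {y}).Finite := by
  rcases y with ⟨k, w⟩ | p
  · have : ff ⁻¹' {YY.node k w} ⊆
        Set.range (fun i : Fin (k + 1) => XX.node k w i.1 (Nat.le_of_lt_succ i.2)) := by
      rintro (⟨k', w', i, h⟩ | p) hx
      · have hx' : YY.node k' w' = YY.node k w := hx
        injection hx' with h1 h2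
        subst h1 h2
        exact ⟨⟨i, Nat.lt_succ_of_le h⟩, rfl⟩
      · have hx' : YY.leaf p = YY.node k w := hx
        exact absurd hx' (by simp)
    exact (Set.finite_range _).subset this
  · have : ff ⁻¹' {YY.leaf p} ⊆ {XX.leaf p} := by
      rintro (⟨k', w', i, h⟩ | p') hx
      · have hx' : YY.node k' w' = YY.leaf p := hx
        exact absurd hx' (by simp)
      · have hx' : YY.leaf p' = YY.leaf p := hx
        injection hx' with h1
        rw [h1]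
        rfl
    exact (Set.finite_singleton _).subset this

theorem exists_common {U : Set XX} (hU : IsOpen U) (k : ℕ) (w : L Tg)
    (h : ∀ i hi, XX.node k w i hi ∈ U) : ∃ l C, FF C ∧ ∀ i ≤ k, Nh U k w i l C := by
  classical
  have : ∀ i, ∃ l C, FF C ∧ (i ≤ k → Nh U k w i l C) := by
    intro i
    by_cases hi : i ≤ k
    · obtain ⟨l, C, hC, h1⟩ := hU k w i hi (h i hi)
      exact ⟨l, C, hC, fun _ => h1⟩
    · exact ⟨0, Set.univ, FF_univ, fun h => absurd h hi⟩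
  choose l C hC h1 using this
  refine ⟨∑ i ∈ Finset.range (k + 1), l i, ⋂ i, C i, FF_iInter hC, ?_⟩
  intro i hi
  refine Nh_mono Subset.rfl ?_ (Set.iInter_subset _ i) (h1 i hi)
  exact Finset.single_le_sum (f := l) (fun _ _ => Nat.zero_le _)
    (Finset.mem_range.2 (Nat.lt_succ_of_le hi))

theorem isClosedMap_ff : IsClosedMap ff := by
  intro F hF
  rw [← isOpen_compl_iff, isOpen_Y]
  have hU := hF.isOpen_compl
  intro k w i hi hx
  have hall : ∀ i hi, XX.node k w i hi ∈ Fᶜ := by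
    intro i' hi' hmem
    exact hx ⟨_, hmem, rfl⟩
  obtain ⟨l, C, hC, h1⟩ := exists_common hU k w hall
  refine ⟨l, C, hC, ?_, ?_⟩
  · rintro w' h' hw' ⟨x, hxF, hxe⟩
    rcases x with ⟨k2, w2, i2, h2⟩ | p
    · have hx' : YY.node k2 w2 = YY.node k w' := hxe
      injection hx' with e1 e2
      subst e1 e2
      exact (h1 i2 h2).1 w2 h2 hw' hxF
    · have hx' : YY.leaf p = YY.node k w' := hxe
      exact absurd hx' (by simp)
  · rintro p hp hs ⟨x, hxF, hxe⟩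
    rcases x with ⟨k2, w2, i2, h2⟩ | p'
    · have hx' : YY.node k2 w2 = YY.leaf p := hxe
      exact absurd hx' (by simp)
    · have hx' : YY.leaf p' = YY.leaf p := hxe
      injection hx' with e1
      subst e1
      exact (h1 i hi).2 _ hp hs hxF

theorem exists_not_nb (w w' : L Tg) : ∃ l, ¬ nb w l ⊆ w'.T := by
  by_contra hcon
  push Not at hcon
  have : (Set.range (fun r : ℕ => (w, r))).Infinite :=
    Set.infinite_range_of_injective (fun r r' h => congrArg Prod.snd h)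
  apply this
  apply (T_finite w').subset
  rintro _ ⟨r, rfl⟩
  exact hcon (r + 1) (Or.inr ⟨rfl, Nat.lt_succ_self r⟩)

theorem t1X : T1Space XX := by
  constructor
  rintro (⟨k, w, i, h⟩ | p)
  · rw [← isOpen_compl_iff]
    intro k1 w1 i1 h1 _
    obtain ⟨l, hl⟩ := exists_not_nb w1 w
    refine ⟨l, Set.univ, FF_univ, ?_, ?_⟩
    · intro w' h' hw' he
      have he' : XX.node k1 w' i1 h' = XX.node k w i h := he
      injection he' with e1 e2 e3
      subst e2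
      exact hl hw'
    · intro p _ _ he
      have he' : XX.leaf p = XX.node k w i h := he
      exact absurd he' (by simp)
  · rw [← isOpen_compl_iff]
    intro k w i h _
    obtain ⟨l, hl⟩ := p.good k w
    refine ⟨l, Set.univ, FF_univ, ?_, ?_⟩
    · intro w' h' _ he
      have he' : XX.node k w' i h' = XX.leaf p := he
      exact absurd he' (by simp)
    · intro p' _ hs he
      have he' : XX.leaf p' = XX.leaf p := he
      injection he' with e1
      subst e1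
      obtain ⟨te, h1, _, h3⟩ := hs
      exact hl te h1 h3

theorem t1Y : T1Space YY := by
  have := t1X
  constructor
  intro y
  obtain ⟨x, rfl⟩ := surjective_ff y
  have := isClosedMap_ff {x} isClosed_singleton
  rwa [Set.image_singleton] at this

/-- `δθ`-refinability. -/
def DeltaTheta (X : Type) [TopologicalSpace X] : Prop :=
  ∀ 𝒰 : Set (Set X), (∀ u ∈ 𝒰, IsOpen u) → ⋃₀ 𝒰 = Set.univ →
    ∃ 𝒱 : ℕ → Set (Set X), (∀ n, (∀ v ∈ 𝒱 n, IsOpen v) ∧ ⋃₀ 𝒱 n = Set.univ ∧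
      ∀ v ∈ 𝒱 n, ∃ u ∈ 𝒰, v ⊆ u) ∧ ∀ x, ∃ n, {v | v ∈ 𝒱 n ∧ x ∈ v}.Countable

/-! ### The upper space is `δθ`-refinable -/

/-- the members of the refinements -/
def Vs (Q : GD) (C : Set PP) (m k : ℕ) (w : L Tg) (i : ℕ) : Set XX :=
  {x | (∃ w' h, x = XX.node k w' i h ∧ (w' = w ∨ cond (Q k w) m i w w'.T)) ∨
    ∃ p, x = XX.leaf p ∧ p ∈ C ∧ ∃ te ∈ p.E k, te.2 = i ∧ cond (Q k w) m i w te.1}

theorem cond_of_nb {l m i : ℕ} {w : L Tg} {t : Set (L Tg × ℕ)}
    (h : nb w (code l m i + 1) ⊆ t) : cond l m i w t := by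
  refine ⟨(T_sub_nb _ _).trans h, fun r hr => h (Or.inr ⟨rfl, ?_⟩), h (Or.inr ⟨rfl, ?_⟩)⟩
  · have := le_code_left l m i
    simp only
    omega
  · simp only
    omega

theorem nb_of_cond {l m i : ℕ} {w : L Tg} {t : Set (L Tg × ℕ)} (h : cond l m i w t) :
    nb w l ⊆ t := by
  rintro ⟨b, r⟩ (hq | hq)
  · exact h.1 hq
  · obtain ⟨h1, h2⟩ := hq
    simp only at h1 h2
    rw [h1]
    exact h.2.1 r h2

theorem isOpen_Vs (Q : GD) (C : Set PP) (hC : FF C) (m k : ℕ) (w : L Tg) (i : ℕ) :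
    IsOpen (Vs Q C m k w i) := by
  intro k1 w1 i1 h1 hx
  rcases hx with ⟨w', h', hx, hw'⟩ | ⟨p, hx, _⟩
  · injection hx with e1 e2 e3
    subst e1 e2 e3
    rcases hw' with rfl | hw'
    · refine ⟨code (Q k1 w1) m i1 + 1, C, hC, ?_, ?_⟩
      · intro w2 h2 hw2
        exact Or.inl ⟨w2, h2, rfl, Or.inr (cond_of_nb hw2)⟩
      · rintro p hp ⟨te, ht1, ht2, ht3⟩
        exact Or.inr ⟨p, rfl, hp, te, ht1, ht2, cond_of_nb ht3⟩
    · refine ⟨0, C, hC, ?_, ?_⟩
      · intro w2 h2 hw2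
        exact Or.inl ⟨w2, h2, rfl, Or.inr (cond_mono ((T_sub_nb _ _).trans hw2) hw')⟩
      · rintro p hp ⟨te, ht1, ht2, ht3⟩
        exact Or.inr ⟨p, rfl, hp, te, ht1, ht2, cond_mono ((T_sub_nb _ _).trans ht3) hw'⟩
  · exact absurd hx (by simp)

theorem isOpen_leaf (p : PP) : IsOpen ({XX.leaf p} : Set XX) := by
  intro k w i h hx
  have hx' : XX.node k w i h = XX.leaf p := hx
  exact absurd hx' (by simp)

theorem deltaTheta_X : DeltaTheta XX := by
  classical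
  intro 𝒰 hop hcov
  have hu : ∀ x, ∃ u ∈ 𝒰, x ∈ u := by
    intro x
    have : x ∈ ⋃₀ 𝒰 := by rw [hcov]; trivial
    exact this
  choose u hu1 hu2 using hu
  have hN : ∀ k w i, ∃ l C, FF C ∧ ∀ h : i ≤ k, Nh (u (XX.node k w i h)) k w i l C := by
    intro k w i
    by_cases h : i ≤ k
    · obtain ⟨l, C, hC, h1⟩ := hop _ (hu1 (XX.node k w i h)) k w i h (hu2 _)
      exact ⟨l, C, hC, fun _ => h1⟩
    · exact ⟨0, Set.univ, FF_univ, fun h' => absurd h' h⟩
  choose l C hC hNh using hN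
  set Q : GD := fun k w => ∑ i ∈ Finset.range (k + 1), l k w i with hQ
  have hlQ : ∀ k w i, i ≤ k → l k w i ≤ Q k w := by
    intro k w i hi
    exact Finset.single_le_sum (f := fun i => l k w i) (fun _ _ => Nat.zero_le _)
      (Finset.mem_range.2 (Nat.lt_succ_of_le hi))
  set V : ℕ → ℕ → L Tg → ℕ → Set XX := fun m k w i => Vs Q (C k w i ∩ CQ Q) m k w i with hV
  have hVu : ∀ m k w i (hi : i ≤ k), V m k w i ⊆ u (XX.node k w i hi) := by
    intro m k w i hi x hx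
    rcases hx with ⟨w', h', rfl, hw'⟩ | ⟨p, rfl, hp, te, ht1, ht2, ht3⟩
    · rcases hw' with rfl | hw'
      · exact hu2 _
      · exact (hNh k w i hi).1 w' h' ((nb_mono (hlQ k w i hi)).trans (nb_of_cond hw'))
    · exact (hNh k w i hi).2 p hp.1
        ⟨te, ht1, ht2, (nb_mono (hlQ k w i hi)).trans (nb_of_cond ht3)⟩
  set 𝒱 : ℕ → Set (Set XX) := fun m => {v | (∃ k w i, i ≤ k ∧ root (Q k) m i w ∧
    v = V m k w i) ∨ ∃ p, v = {XX.leaf p}} with h𝒱
  refine ⟨𝒱, ?_, ?_⟩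
  · intro m
    refine ⟨?_, ?_, ?_⟩
    · rintro v (⟨k, w, i, _, _, rfl⟩ | ⟨p, rfl⟩)
      · exact isOpen_Vs _ _ (FF_inter (hC _ _ _) (FF_CQ Q)) _ _ _ _
      · exact isOpen_leaf p
    · rw [Set.eq_univ_iff_forall]
      rintro (⟨k, w, i, h⟩ | p)
      · by_cases hr : root (Q k) m i w
        · exact ⟨_, Or.inl ⟨k, w, i, h, hr, rfl⟩, Or.inl ⟨w, h, rfl, Or.inl rfl⟩⟩
        · rw [root_iff, not_not] at hr
          obtain ⟨b, hb1, hb2⟩ := hr
          exact ⟨_, Or.inl ⟨k, b, i, h, hb1, rfl⟩, Or.inl ⟨w, h, rfl, Or.inr hb2⟩⟩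
      · exact ⟨_, Or.inr ⟨p, rfl⟩, rfl⟩
    · rintro v (⟨k, w, i, hi, _, rfl⟩ | ⟨p, rfl⟩)
      · exact ⟨_, hu1 _, hVu m k w i hi⟩
      · refine ⟨_, hu1 (XX.leaf p), ?_⟩
        rintro _ rfl
        exact hu2 _
  · rintro (⟨k, w, i, h⟩ | p)
    · refine ⟨0, ?_⟩
      have hfin : (insert (V 0 k w i) ((fun q : L Tg × ℕ => V 0 k q.1 i) '' w.T)).Countable :=
        (((T_finite w).image _).insert _).countable
      apply hfin.mono
      rintro v ⟨⟨k', w', i', _, _, rfl⟩ | ⟨p, rfl⟩, hv2⟩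
      · rcases hv2 with ⟨w2, h2, he, hw2⟩ | ⟨p, he, _⟩
        · injection he with e1 e2 e3
          subst e1 e2 e3
          rcases hw2 with rfl | hw2
          · exact Set.mem_insert _ _
          · exact Set.mem_insert_of_mem _ ⟨_, hw2.2.2, rfl⟩
        · exact absurd he (by simp)
      · have hv' : XX.node k w i h = XX.leaf p := hv2
        exact absurd hv' (by simp)
    · by_cases hp : p ∈ CQ Q
      · obtain ⟨m, hm⟩ := hp
        refine ⟨m, ?_⟩
        have hcount := (hm.image (fun q : ℕ × ℕ × L Tg => V m q.1 q.2.2 q.2.1)).insert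
          {XX.leaf p}
        apply hcount.mono
        rintro v ⟨⟨k', w', i', hi', hr', rfl⟩ | ⟨p', rfl⟩, hv2⟩
        · rcases hv2 with ⟨w2, h2, he, hw2⟩ | ⟨p2, he, hp2, hte⟩
          · exact absurd he (by simp)
          · injection he with e1
            subst e1
            exact Set.mem_insert_of_mem _ ⟨(k', i', w'), ⟨hi', hr', hte⟩, rfl⟩
        · have hv' : XX.leaf p = XX.leaf p' := hv2
          injection hv' with e1
          subst e1
          exact Set.mem_insert _ _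
      · refine ⟨0, (Set.countable_singleton ({XX.leaf p} : Set XX)).mono ?_⟩
        rintro v ⟨⟨k', w', i', _, _, rfl⟩ | ⟨p', rfl⟩, hv2⟩
        · rcases hv2 with ⟨w2, h2, he, hw2⟩ | ⟨p2, he, hp2, _⟩
          · exact absurd he (by simp)
          · injection he with e1
            subst e1
            exact absurd hp2.2 hp
        · have hv' : XX.leaf p = XX.leaf p' := hv2
          injection hv' with e1
          subst e1
          rfl

/-! ### The lower space is not -/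

/-- the cover -/
def Us (k : ℕ) (jj : L Tg × ℕ) : Set YY :=
  {y | (∃ w, y = YY.node k w ∧ (jj.1 = w ∨ jj ∈ w.T)) ∨ ∃ p, y = YY.leaf p}

theorem isOpen_Us (k : ℕ) (jj : L Tg × ℕ) : IsOpen (Us k jj) := by
  rw [isOpen_Y]
  intro k1 w1 i1 h1 hx
  rcases hx with ⟨w, hx, hw⟩ | ⟨p, hx⟩
  · have hx' : YY.node k1 w1 = YY.node k w := hx
    injection hx' with e1 e2
    subst e1 e2
    refine ⟨jj.2 + 1, Set.univ, FF_univ, ?_, ?_⟩
    · intro w2 h2 hw2
      refine Or.inl ⟨w2, rfl, Or.inr (hw2 ?_)⟩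
      rcases hw with hw | hw
      · exact Or.inr ⟨hw, Nat.lt_succ_self _⟩
      · exact Or.inl hw
    · intro p _ _
      exact Or.inr ⟨p, rfl⟩
  · have hx' : YY.node k1 w1 = YY.leaf p := hx
    exact absurd hx' (by simp)

theorem not_deltaTheta_Y : ¬ DeltaTheta YY := by
  classical
  intro hY
  obtain ⟨𝒱, h1, h2⟩ := hY {u | ∃ k jj, u = Us k jj} (by
    rintro _ ⟨k, jj, rfl⟩
    exact isOpen_Us k jj) (by
    rw [Set.eq_univ_iff_forall]
    rintro (⟨k, w⟩ | p)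
    · exact ⟨_, ⟨k, (w, 0), rfl⟩, Or.inl ⟨w, rfl, Or.inl rfl⟩⟩
    · exact ⟨_, ⟨0, (L.mk ⟨0, pt 0⟩ 0 Fin.elim0 Fin.elim0, 0), rfl⟩, Or.inr ⟨p, rfl⟩⟩)
  have hW : ∀ k w, ∃ v ∈ 𝒱 k, YY.node k w ∈ v := by
    intro k w
    have : YY.node k w ∈ ⋃₀ 𝒱 k := by rw [(h1 k).2.1]; trivial
    exact this
  choose W hW1 hW2 using hW
  have hj : ∀ k w, ∃ jj : L Tg × ℕ, (jj.1 = w ∨ jj ∈ w.T) ∧ W k w ⊆ Us k jj := by
    intro k w
    obtain ⟨u, ⟨k', jj, rfl⟩, hu⟩ := (h1 k).2.2 _ (hW1 k w)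
    rcases hu (hW2 k w) with ⟨w', he, hw'⟩ | ⟨p, he⟩
    · injection he with e1 e2
      subst e1 e2
      exact ⟨jj, hw', hu⟩
    · exact absurd he (by simp)
  choose j hj1 hj2 using hj
  have hR : ∀ k w, ∃ l C, FF C ∧ ∀ i ≤ k, Nh (ff ⁻¹' (W k w)) k w i l C := by
    intro k w
    exact exists_common ((h1 k).1 _ (hW1 k w)) k w (fun i hi => hW2 k w)
  choose R C hC hN using hR
  choose Q hQ using hC
  obtain ⟨A, i, M, hA1, hA2, hA3, hA4, hA5⟩ := comb j hj1 R Q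
  set p : PP := ⟨fun k => {te | ∃ w ∈ A k, te = (nb w (R k w), i k)}, by
    intro k w
    refine ⟨M k + 1, ?_⟩
    rintro _ ⟨a, ha, rfl⟩ hsub
    obtain ⟨h3, h4⟩ := hA4 k a ha
    rcases hsub (Or.inr ⟨rfl, Nat.lt_succ_self (M k)⟩ : (w, M k) ∈ nb w (M k + 1)) with h5 | h5
    · exact absurd (h4 _ h5) (lt_irrefl _)
    · exact absurd h5.2 (not_lt.2 h3)⟩ with hp
  have hpC : ∀ k, ∀ w ∈ A k, ∀ n, p ∈ CQ (Q k w n) := by
    intro k' w' hw' n
    obtain ⟨m, hm⟩ := hA5 k' w' hw' n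
    refine ⟨m, ?_⟩
    apply (hm.image (fun q : ℕ × L Tg => (q.1, i q.1, q.2))).mono
    rintro ⟨k, ii, b⟩ ⟨_, hr, te, ⟨w, hw, rfl⟩, hi, hc⟩
    simp only at hr hi hc hw
    subst hi
    exact ⟨(k, b), ⟨hr, w, hw, hc⟩, rfl⟩
  have hpW : ∀ k, ∀ w ∈ A k, YY.leaf p ∈ W k w := by
    intro k w hw
    have := (hN k w (i k) (hA2 k)).2 p (hQ k w (Set.mem_iInter.2 (hpC k w hw)))
      ⟨_, ⟨w, hw, rfl⟩, rfl, Subset.rfl⟩
    exact this
  obtain ⟨n, hn⟩ := h2 (YY.leaf p)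
  apply hA1 n
  have hmaps : Set.MapsTo (W n) (A n) {v | v ∈ 𝒱 n ∧ YY.leaf p ∈ v} := fun w hw =>
    ⟨hW1 n w, hpW n w hw⟩
  refine hmaps.countable_of_injOn ?_ hn
  intro w hw w' hw' he
  by_contra hne
  have h3 := hA3 n w hw w' hw' hne
  have h4 : YY.node n w' ∈ Us n (j n w) := hj2 n w (he ▸ hW2 n w')
  rcases h4 with ⟨w2, he2, hw2⟩ | ⟨p', he2⟩
  · injection he2 with e1 e2
    subst e2
    rcases hw2 with hw2 | hw2
    · exact h3.1 hw2
    · exact h3.2 hw2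
  · exact absurd he2 (by simp)

end Pool.Agent.H41.Delta
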