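import Mathlib

/-!
Finite labelled trees, the relation `cond`, roots, and functoriality in the tag set.
-/

namespace Pool.Agent.H41.Delta

open Set Cardinal

/-- Finite trees with tags in `S`: a tag and a finite list of labels, a label being a pair of a
tree and a natural number. -/
inductive L (S : Type) : Type
  | mk (x : S) (m : ℕ) (b : Fin m → L S) (r : Fin m → ℕ) : L S

namespace L

variable {S S' : Type}

/-- The tag of a tree. -/
def top : L S → S
  | mk x _ _ _ => x

/-- The set of labels of a tree. -/
def T : L S → Set (L S × ℕ)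
  | mk _ _ b r => Set.range (fun i => (b i, r i))

/-- All tags occurring in a tree. -/
def tags : L S → Set S
  | mk x _ b _ => insert x (⋃ i, tags (b i))

/-- Size of a tree. -/
def size : L S → ℕ
  | mk _ _ b _ => 1 + ∑ i, size (b i)

/-- Functoriality. -/
def map (φ : S → S') : L S → L S'
  | mk x m b r => mk (φ x) m (fun i => map φ (b i)) r

/-- The coding function. -/
def code (l μ i : ℕ) : ℕ := Nat.pair l (Nat.pair μ i)

theorem le_code_left (l μ i : ℕ) : l ≤ code l μ i := Nat.left_le_pair _ _

theorem le_code_mid (l μ i : ℕ) : μ ≤ code l μ i :=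
  (Nat.left_le_pair _ _).trans (Nat.right_le_pair _ _)

theorem code_inj {l μ i l' μ' i' : ℕ} (h : code l μ i = code l' μ' i') :
    l = l' ∧ μ = μ' ∧ i = i' := by
  unfold code at h
  rw [Nat.pair_eq_pair, Nat.pair_eq_pair] at h
  exact h

/-- The set `t` sees `b`. -/
def cond (l μ i : ℕ) (b : L S) (t : Set (L S × ℕ)) : Prop :=
  b.T ⊆ t ∧ (∀ r < l, (b, r) ∈ t) ∧ (b, code l μ i) ∈ t

/-- Roots, defined by recursion on trees. -/
def root (l : L S → ℕ) (μ i : ℕ) : L S → Prop
  | mk _ m b r => ¬ ∃ j : Fin m, root l μ i (b j) ∧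
      cond (l (b j)) μ i (b j) (Set.range (fun i => (b i, r i)))

theorem T_finite (w : L S) : w.T.Finite := by
  cases w with
  | mk x m b r => exact Set.finite_range _

theorem exists_T (x : S) (F : Set (L S × ℕ)) (hF : F.Finite) :
    ∃ w : L S, w.top = x ∧ w.T = F := by
  classical
  obtain ⟨s, rfl⟩ := hF.exists_finset_coe
  refine ⟨mk x s.card (fun i => (s.equivFin.symm i).1.1) (fun i => (s.equivFin.symm i).1.2),
    rfl, ?_⟩
  ext p
  simp only [T, Set.mem_range, Finset.mem_coe]
  constructor
  · rintro ⟨i, rfl⟩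
    exact (s.equivFin.symm i).2
  · intro hp
    exact ⟨s.equivFin ⟨p, hp⟩, by simp⟩

theorem top_mem_tags (w : L S) : w.top ∈ w.tags := by
  cases w with
  | mk x m b r => simp [top, tags]

theorem tags_eq (w : L S) : w.tags = insert w.top (⋃ p ∈ w.T, p.1.tags) := by
  cases w with
  | mk x m b r => simp [top, tags, T]

theorem tags_subset_of_mem {w : L S} {p : L S × ℕ} (h : p ∈ w.T) : p.1.tags ⊆ w.tags := by
  rw [tags_eq w]
  refine Set.Subset.trans ?_ (Set.subset_insert _ _)
  exact Set.subset_biUnion_of_mem (u := fun p : L S × ℕ => p.1.tags) h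

theorem size_lt_of_mem {w : L S} {p : L S × ℕ} (h : p ∈ w.T) : p.1.size < w.size := by
  cases w with
  | mk x m b r =>
    obtain ⟨i, rfl⟩ := h
    simp only [size]
    have := Finset.single_le_sum (f := fun i => (b i).size) (fun _ _ => Nat.zero_le _)
      (Finset.mem_univ i)
    omega

theorem not_mem_self (w : L S) (r : ℕ) : (w, r) ∉ w.T := fun h =>
  lt_irrefl _ (size_lt_of_mem (p := (w, r)) h)

/-- induction on labels -/
theorem ind {P : L S → Prop} (h : ∀ w, (∀ p ∈ w.T, P p.1) → P w) (w : L S) : P w := by
  induction w with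
  | mk x m b r ih =>
    apply h
    rintro p ⟨i, rfl⟩
    exact ih i

theorem root_iff (l : L S → ℕ) (μ i : ℕ) (w : L S) :
    root l μ i w ↔ ¬ ∃ b, root l μ i b ∧ cond (l b) μ i b w.T := by
  cases w with
  | mk x m b r =>
    rw [root]
    apply not_congr
    constructor
    · rintro ⟨j, h1, h2⟩
      exact ⟨b j, h1, h2⟩
    · rintro ⟨c, h1, h2⟩
      obtain ⟨j, hj⟩ := h2.2.2
      have hj' : b j = c := congrArg Prod.fst hj
      exact ⟨j, hj' ▸ h1, by rw [hj']; exact h2⟩

theorem cond_mono {l μ i : ℕ} {b : L S} {t t' : Set (L S × ℕ)} (h : t ⊆ t')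
    (hc : cond l μ i b t) : cond l μ i b t' :=
  ⟨hc.1.trans h, fun r hr => h (hc.2.1 r hr), h hc.2.2⟩

/-! ### Functoriality -/

theorem top_map (φ : S → S') (w : L S) : (map φ w).top = φ w.top := by
  cases w with
  | mk x m b r => rfl

/-- the action on labels -/
def mapl (φ : S → S') (p : L S × ℕ) : L S' × ℕ := (map φ p.1, p.2)

theorem T_map (φ : S → S') (w : L S) : (map φ w).T = mapl φ '' w.T := by
  cases w with
  | mk x m b r =>
    simp only [map, T]
    rw [← Set.range_comp]
    rfl

theorem tags_map (φ : S → S') (w : L S) : (map φ w).tags = φ '' w.tags := by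
  induction w with
  | mk x m b r ih =>
    simp only [map, tags, Set.image_insert_eq, Set.image_iUnion, ih]

theorem map_congr {φ ψ : S → S'} (w : L S) (h : ∀ s ∈ w.tags, φ s = ψ s) :
    map φ w = map ψ w := by
  induction w with
  | mk x m b r ih =>
    have h1 : φ x = ψ x := h x (by simp [tags])
    have h2 : ∀ i, map φ (b i) = map ψ (b i) := fun i => ih i (fun s hs => h s (by
      simp only [tags, Set.mem_insert_iff, Set.mem_iUnion]
      exact Or.inr ⟨i, hs⟩))
    simp only [map, h1, h2]

theorem map_inj {φ : S → S'} (hφ : Function.Injective φ) :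
    Function.Injective (map φ : L S → L S') := by
  intro w
  induction w with
  | mk x m b r ih =>
    intro w' h
    cases w' with
    | mk x' m' b' r' =>
      simp only [map] at h
      injection h with h1 h2 h3 h4
      subst h2
      have h1' := hφ h1
      subst h1'
      have h4' := eq_of_heq h4
      subst h4'
      have h3' := eq_of_heq h3
      have : b = b' := funext fun i => ih i (congrFun h3' i)
      rw [this]

theorem mapl_inj {φ : S → S'} (hφ : Function.Injective φ) :
    Function.Injective (mapl φ : L S × ℕ → L S' × ℕ) := by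
  rintro ⟨a, r⟩ ⟨a', r'⟩ h
  simp only [mapl, Prod.mk.injEq] at h
  rw [map_inj hφ h.1, h.2]

theorem cond_map {φ : S → S'} (hφ : Function.Injective φ) (l μ i : ℕ) (b : L S)
    (t : Set (L S × ℕ)) : cond l μ i (map φ b) (mapl φ '' t) ↔ cond l μ i b t := by
  unfold cond
  rw [T_map, Set.image_subset_image_iff (mapl_inj hφ)]
  have key : ∀ r : ℕ, (map φ b, r) ∈ mapl φ '' t ↔ (b, r) ∈ t := fun r =>
    (mapl_inj hφ).mem_set_image (a := (b, r)) (s := t)
  simp only [key]

theorem root_map {φ : S → S'} (hφ : Function.Injective φ) (l : L S' → ℕ) (μ i : ℕ) (w : L S) :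
    root l μ i (map φ w) ↔ root (fun b => l (map φ b)) μ i w := by
  induction w using ind with
  | h w ih =>
    rw [root_iff, root_iff]
    apply not_congr
    constructor
    · rintro ⟨b, h1, h2⟩
      have h3 := h2.2.2
      rw [T_map] at h3
      obtain ⟨p, hp, hpb⟩ := h3
      have hb : map φ p.1 = b := congrArg Prod.fst hpb
      subst hb
      refine ⟨p.1, (ih p hp).1 h1, ?_⟩
      rw [T_map] at h2
      exact (cond_map hφ _ _ _ _ _).1 h2
    · rintro ⟨b, h1, h2⟩
      refine ⟨map φ b, (ih _ h2.2.2).2 h1, ?_⟩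
      rw [T_map]
      exact (cond_map hφ _ _ _ _ _).2 h2

/-! ### Countability -/

/-- comparison with a `WType` -/
def toW : L S → WType (fun s : S × (Σ m : ℕ, Fin m → ℕ) => Fin s.2.1)
  | mk x m b r => WType.mk (x, ⟨m, r⟩) (fun i => toW (b i))

theorem toW_inj : Function.Injective (toW : L S → _) := by
  intro w
  induction w with
  | mk x m b r ih =>
    intro w' h
    cases w' with
    | mk x' m' b' r' =>
      simp only [toW] at h
      injection h with h1 h2
      have hx : x = x' := congrArg Prod.fst h1
      have hm : (⟨m, r⟩ : Σ m : ℕ, Fin m → ℕ) = ⟨m', r'⟩ := congrArg Prod.snd h1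
      obtain ⟨hm1, hr⟩ := Sigma.mk.inj_iff.1 hm
      subst hx hm1
      have hr' := eq_of_heq hr
      subst hr'
      have h2' := eq_of_heq h2
      have : b = b' := funext fun i => ih i (congrFun h2' i)
      rw [this]

instance [Countable S] : Countable (L S) := by
  classical
  have : Encodable S := Encodable.ofCountable S
  have : Encodable (Σ m : ℕ, Fin m → ℕ) := Encodable.ofCountable _
  exact toW_inj.countable

end L

end Pool.Agent.H41.Delta
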